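import Pool.Agent.TH929.FI.LambdaA
import Pool.Agent.TH611.FI_TGT
import Pool.Agent.TH267.FI_GEO

/-!
Job FI-LAMBDA (project MP_572a3e_an): bound for the expected total length of block edges.
-/

namespace Pool.Agent.TH929.FI

open MeasureTheory Set Filter Pool.Agent.TH722.FI Pool.Agent.TH611.FI
open scoped Topology ENNReal

variable {r : ℕ} {X : Type*} [MeasurableSpace X] {μ : Measure X}
  [MulAction (FreeGroup (Fin r)) X]

/-- `g` is a block edge at `x` -/
def Bkp (T : FreeGroup (Fin r) → X → X) (E : Fin r → Set X) (key : X → ℝ)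
    (x : X) (g : FreeGroup (Fin r)) : Prop :=
  (HG T E key x).Adj 1 g ∧ ¬ (CC T E x).Adj 1 g

/-- the tuple `(a,u,v)` is charged at `x` in direction `i` -/
def Chg (T : FreeGroup (Fin r) → X → X) (E : Fin r → Set X) (key : X → ℝ)
    (β : Fin r → X → FreeGroup (Fin r)) (x : X)
    (t : Fin r × FreeGroup (Fin r) × FreeGroup (Fin r) × FreeGroup (Fin r)) : Prop :=
  t.2.1 • x ∉ E t.1 ∧ (CG r).Adj t.2.2.1 t.2.2.2 ∧
  ¬ ((CG r).deleteEdges {s(t.2.2.1, t.2.2.2)}).Reachable t.2.1 (β t.1 (t.2.1 • x) * t.2.1) ∧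
  Near (CG r) (TG T x) (CC T E x) (fun g => key (g • x)) t.2.2.1 1 ∧
  Blk (TG T x) (CC T E x) 1 t.2.1

open Classical in
/-- the charge -/
noncomputable def Wt (T : FreeGroup (Fin r) → X → X) (E : Fin r → Set X) (key : X → ℝ)
    (β : Fin r → X → FreeGroup (Fin r))
    (t : Fin r × FreeGroup (Fin r) × FreeGroup (Fin r) × FreeGroup (Fin r)) (x : X) : ℝ≥0∞ :=
  if Chg T E key β x t then (((β t.1 (t.2.1 • x)).norm : ℝ≥0∞) + 1) else 0

theorem key_inj {T : FreeGroup (Fin r) → X → X} (hC : Common μ T) {key : X → ℝ}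
    (hki : Function.Injective key) (x : X) :
    Function.Injective fun a : FreeGroup (Fin r) => key (a • x) := by
  intro a b h
  have h1 : a • x = b • x := hki h
  have h2 : (b⁻¹ * a) • x = x := by rw [mul_smul, h1, inv_smul_smul]
  have h3 := hC.freeU _ _ h2
  rw [inv_mul_eq_one] at h3
  exact h3.symm

theorem smul_inj {T : FreeGroup (Fin r) → X → X} (hC : Common μ T) {x : X}
    {a b : FreeGroup (Fin r)} (h1 : a • x = b • x) : a = b := by
  have h2 : (b⁻¹ * a) • x = x := by rw [mul_smul, h1, inv_smul_smul]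
  have h3 := hC.freeU _ _ h2
  rw [inv_mul_eq_one] at h3
  exact h3.symm

theorem exists_charge [IsProbabilityMeasure μ] (T : FreeGroup (Fin r) → X → X) (hC : Common μ T)
    (E : Fin r → Set X) (key : X → ℝ) (hki : Function.Injective key)
    (β : Fin r → X → FreeGroup (Fin r)) (hβ : ∀ i x, T (FreeGroup.of i) x = β i x • x)
    (x : X) (g : FreeGroup (Fin r)) (hg : Bkp T E key x g) :
    ∃ t : Fin r × FreeGroup (Fin r) × FreeGroup (Fin r) × FreeGroup (Fin r),
      Chg T E key β x t ∧ g.norm ≤ (β t.1 (t.2.1 • x)).norm ∧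
      Near (CG r) (TG T x) (CC T E x) (fun g => key (g • x)) t.2.2.2 g ∧
      Blk (TG T x) (CC T E x) 1 g := by
  obtain ⟨hcg, hdist, -, -⟩ := cg_tree r
  obtain ⟨htg, -, hle, -, -⟩ := tg_tree T hC x
  rcases hg with ⟨h | ⟨hne, hb, u, v, huv, hu, hv⟩, hnc⟩
  · exact absurd h hnc
  obtain ⟨-, -, -, ⟨a, b, hab, hcab, hba, hsep, hd⟩, -⟩ :=
    Pool.Agent.TH267.FI.block_geo (CG r) (TG T x) (CC T E x) hcg htg (hle E)
      (fun a => key (a • x)) (key_inj hC hki x) 1 g u v hne hb huv hu hv
  rw [hdist, hdist, inv_one, mul_one] at hd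
  obtain ⟨hab', i, h | h⟩ := hab
  · have hbe : b = β i (a • x) * a := by
      apply smul_inj hC (x := x)
      rw [mul_smul, ← hβ, h]
    refine ⟨(i, a, u, v), ⟨?_, huv, ?_, hu, hba⟩, ?_, hv, hb⟩
    · intro hE
      exact hcab ⟨hab', i, Or.inl ⟨hE, h⟩⟩
    · change ¬ ((CG r).deleteEdges {s(u, v)}).Reachable a (β i (a • x) * a)
      rw [← hbe]
      exact hsep
    · change g.norm ≤ (β i (a • x)).norm
      rw [hbe, mul_inv_cancel_right] at hd
      exact hd
  · have hae : a = β i (b • x) * b := by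
      apply smul_inj hC (x := x)
      rw [mul_smul, ← hβ, h]
    refine ⟨(i, b, u, v), ⟨?_, huv, ?_, hu, ?_⟩, ?_, hv, hb⟩
    · intro hE
      exact hcab ⟨hab', i, Or.inr ⟨hE, h⟩⟩
    · change ¬ ((CG r).deleteEdges {s(u, v)}).Reachable b (β i (b • x) * b)
      rw [← hae]
      exact fun h' => hsep h'.symm
    · change Blk (TG T x) (CC T E x) 1 b
      refine SimpleGraph.Reachable.trans hba (SimpleGraph.Adj.reachable ?_)
      rw [SimpleGraph.sdiff_adj]
      exact ⟨⟨hab', i, Or.inr h⟩, hcab⟩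
    · change g.norm ≤ (β i (b • x)).norm
      have h1 : (b * a⁻¹).norm = (β i (b • x)).norm := by
        rw [← FreeGroup.norm_inv_eq, mul_inv_rev, inv_inv]
        congr 1
        rw [mul_inv_eq_iff_eq_mul]
        exact hae
      rw [h1] at hd
      exact hd

open Classical in
theorem ptwise [IsProbabilityMeasure μ] (T : FreeGroup (Fin r) → X → X) (hC : Common μ T)
    (E : Fin r → Set X) (key : X → ℝ) (hki : Function.Injective key)
    (β : Fin r → X → FreeGroup (Fin r)) (hβ : ∀ i x, T (FreeGroup.of i) x = β i x • x)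
    (S : Finset (FreeGroup (Fin r))) (x : X) :
    ∑ g ∈ S, (if Bkp T E key x g then ((g.norm : ℝ≥0∞) + 1) else 0) ≤
      ∑' t, Wt T E key β t x := by
  have hch := fun g hg => exists_charge T hC E key hki β hβ x g hg
  rw [← Finset.sum_filter]
  by_cases hne : ∃ g, Bkp T E key x g
  swap
  · have : S.filter (fun g => Bkp T E key x g) = ∅ := by
      apply Finset.filter_eq_empty_iff.2
      intro g _ hg
      exact hne ⟨g, hg⟩
    rw [this, Finset.sum_empty]
    exact zero_le
  have hne' : Nonempty (Fin r × FreeGroup (Fin r) × FreeGroup (Fin r) × FreeGroup (Fin r)) := by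
    obtain ⟨g, hg⟩ := hne
    obtain ⟨t, -⟩ := hch g hg
    exact ⟨t⟩
  let τ : FreeGroup (Fin r) → Fin r × FreeGroup (Fin r) × FreeGroup (Fin r) × FreeGroup (Fin r) :=
    fun g => if hg : Bkp T E key x g then (hch g hg).choose else Classical.choice hne'
  have hτ : ∀ g, Bkp T E key x g → Chg T E key β x (τ g) ∧
      g.norm ≤ (β (τ g).1 ((τ g).2.1 • x)).norm ∧
      Near (CG r) (TG T x) (CC T E x) (fun g => key (g • x)) (τ g).2.2.2 g ∧
      Blk (TG T x) (CC T E x) 1 g := by
    intro g hg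
    have h1 : τ g = (hch g hg).choose := dif_pos hg
    rw [h1]
    exact (hch g hg).choose_spec
  calc ∑ g ∈ S.filter (fun g => Bkp T E key x g), ((g.norm : ℝ≥0∞) + 1)
      ≤ ∑ g ∈ S.filter (fun g => Bkp T E key x g), Wt T E key β (τ g) x := by
        apply Finset.sum_le_sum
        intro g hg
        obtain ⟨h1, h2, -, -⟩ := hτ g (Finset.mem_filter.1 hg).2
        unfold Wt
        rw [if_pos h1]
        gcongr
    _ = ∑ t ∈ (S.filter (fun g => Bkp T E key x g)).image τ, Wt T E key β t x := by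
        rw [Finset.sum_image]
        intro g hg g' hg' h
        obtain ⟨-, -, h3, h4⟩ := hτ g (Finset.mem_filter.1 hg).2
        obtain ⟨-, -, h3', h4'⟩ := hτ g' (Finset.mem_filter.1 hg').2
        rw [h] at h3
        exact Pool.Agent.TH267.FI.near_antisymm (key_inj hC hki x)
          (SimpleGraph.Reachable.trans (SimpleGraph.Reachable.symm h4) h4') h3 h3'
    _ ≤ ∑' t, Wt T E key β t x := ENNReal.sum_le_tsum _

open Classical in
theorem ptwise2 [IsProbabilityMeasure μ] (T : FreeGroup (Fin r) → X → X) (hC : Common μ T)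
    (E : Fin r → Set X) (key : X → ℝ) (hki : Function.Injective key)
    (β : Fin r → X → FreeGroup (Fin r)) (x : X) :
    ∑' t : Fin r × FreeGroup (Fin r) × FreeGroup (Fin r) × FreeGroup (Fin r),
      Wt T E key β t (t.2.1⁻¹ • x) ≤
    ∑ i, (if x ∈ E i then 0 else (((β i x).norm : ℝ≥0∞) + 1) * (2 * ((β i x).norm : ℝ≥0∞))) := by
  obtain ⟨hcg, hdist, hmul, -⟩ := cg_tree r
  rw [ENNReal.tsum_prod', tsum_fintype]
  apply Finset.sum_le_sum
  intro i _
  split_ifs with hx
  · have : ∀ t : FreeGroup (Fin r) × FreeGroup (Fin r) × FreeGroup (Fin r),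
        Wt T E key β (i, t) (t.1⁻¹ • x) = 0 := by
      intro t
      unfold Wt
      rw [if_neg]
      intro h
      apply h.1
      change t.1 • t.1⁻¹ • x ∈ E i
      rw [smul_inv_smul]
      exact hx
    simp only [this, tsum_zero, le_refl]
  · obtain ⟨D, hD1, hD2⟩ := sep_finset (CG r) hcg.connected 1 (β i x)
    rw [hdist, inv_one, mul_one] at hD1
    have h1 : ∀ t : FreeGroup (Fin r) × FreeGroup (Fin r) × FreeGroup (Fin r),
        Wt T E key β (i, t) (t.1⁻¹ • x) =
        if Chg T E key β (t.1⁻¹ • x) (i, t) then ((β i x).norm : ℝ≥0∞) + 1 else 0 := by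
      intro t
      unfold Wt
      dsimp only
      rw [smul_inv_smul]
    have hkey : ∀ t : FreeGroup (Fin r) × FreeGroup (Fin r) × FreeGroup (Fin r),
        Chg T E key β (t.1⁻¹ • x) (i, t) →
        (CG r).Adj (t.2.1 * t.1⁻¹) (t.2.2 * t.1⁻¹) ∧
        ¬ ((CG r).deleteEdges {s(t.2.1 * t.1⁻¹, t.2.2 * t.1⁻¹)}).Reachable 1 (β i x) ∧
        Near (CG r) (TG T x) (CC T E x) (fun g => key (g • x)) (t.2.1 * t.1⁻¹) t.1⁻¹ ∧
        Blk (TG T x) (CC T E x) t.1⁻¹ 1 := by
      intro t ht
      obtain ⟨-, h2, h3, h4, h5⟩ := ht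
      refine ⟨(hmul _ _ _).2 h2, ?_, ?_, ?_⟩
      · intro h
        apply h3
        change ((CG r).deleteEdges {s(t.2.1, t.2.2)}).Reachable t.1 (β i (t.1 • t.1⁻¹ • x) * t.1)
        rw [smul_inv_smul, cg_del_reach_mul hmul _ _ _ _ t.1⁻¹, mul_inv_cancel,
          mul_inv_cancel_right]
        exact h
      · have := (near_smul hdist T E key x t.1⁻¹ t.2.1 1).1 h4
        rwa [one_mul] at this
      · have := (blk_smul T E x t.1⁻¹ 1 t.1).1 h5
        rwa [one_mul, mul_inv_cancel] at this
    calc ∑' t : FreeGroup (Fin r) × FreeGroup (Fin r) × FreeGroup (Fin r),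
          Wt T E key β (i, t) (t.1⁻¹ • x)
        = ∑' t : FreeGroup (Fin r) × FreeGroup (Fin r) × FreeGroup (Fin r),
          (if Chg T E key β (t.1⁻¹ • x) (i, t) then ((β i x).norm : ℝ≥0∞) + 1 else 0) := by
          congr 1
          funext t
          exact h1 t
      _ ≤ (((β i x).norm : ℝ≥0∞) + 1) * D.card := by
          apply tsum_ite_le _ (fun t => (t.2.1 * t.1⁻¹, t.2.2 * t.1⁻¹)) D
          · intro t ht
            obtain ⟨h2, h3, -, -⟩ := hkey t ht
            exact hD2 _ _ h2 h3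
          · intro t t' ht ht' h
            obtain ⟨-, -, h4, h5⟩ := hkey t ht
            obtain ⟨-, -, h4', h5'⟩ := hkey t' ht'
            simp only [Prod.mk.injEq] at h
            obtain ⟨e1, e2⟩ := h
            rw [e1] at h4
            have e3 : t.1⁻¹ = t'.1⁻¹ :=
              Pool.Agent.TH267.FI.near_antisymm (key_inj hC hki x)
                (SimpleGraph.Reachable.trans h5 (SimpleGraph.Reachable.symm h5')) h4 h4'
            rw [e3] at e1 e2
            have e4 := mul_right_cancel e1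
            have e5 := mul_right_cancel e2
            exact Prod.ext (inv_injective e3) (Prod.ext e4 e5)
      _ ≤ (((β i x).norm : ℝ≥0∞) + 1) * (2 * ((β i x).norm : ℝ≥0∞)) := by
          gcongr
          exact_mod_cast hD1

section MeasPart

theorem beta_meas [StandardBorelSpace X] (T : FreeGroup (Fin r) → X → X) (hC : Common μ T)
    (β : Fin r → X → FreeGroup (Fin r)) (hβ : ∀ i x, T (FreeGroup.of i) x = β i x • x)
    (i : Fin r) (g : FreeGroup (Fin r)) : Measurable fun x => β i x = g := by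
  have : (fun x => β i x = g) = fun x => T (FreeGroup.of i) x = g • x := by
    funext x
    apply propext
    rw [hβ]
    constructor
    · intro h
      rw [h]
    · intro h
      exact smul_inj hC h
  rw [this]
  exact Measurable.eq (hC.actT.mp _).measurable (hC.mpU g).measurable

theorem beta_pred [StandardBorelSpace X] (T : FreeGroup (Fin r) → X → X) (hC : Common μ T)
    (β : Fin r → X → FreeGroup (Fin r)) (hβ : ∀ i x, T (FreeGroup.of i) x = β i x • x)
    (i : Fin r) (P : FreeGroup (Fin r) → Prop) : Measurable fun x => P (β i x) := by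
  have : (fun x => P (β i x)) = fun x => ∃ g, P g ∧ β i x = g := by
    funext x
    apply propext
    constructor
    · intro h
      exact ⟨_, h, rfl⟩
    · rintro ⟨g, h, rfl⟩
      exact h
  rw [this]
  exact Measurable.exists fun g => measurable_const.and (beta_meas T hC β hβ i g)

theorem beta_fun {Y : Type*} [MeasurableSpace Y] [StandardBorelSpace X]
    (T : FreeGroup (Fin r) → X → X) (hC : Common μ T)
    (β : Fin r → X → FreeGroup (Fin r)) (hβ : ∀ i x, T (FreeGroup.of i) x = β i x • x)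
    (i : Fin r) (φ : FreeGroup (Fin r) → Y) : Measurable fun x => φ (β i x) := by
  intro s _
  exact measurableSet_setOfPred.mpr (beta_pred T hC β hβ i (fun g => φ g ∈ s))

theorem chg_meas [StandardBorelSpace X] (T : FreeGroup (Fin r) → X → X) (hC : Common μ T)
    (E : Fin r → Set X) (hE : ∀ i, MeasurableSet (E i)) (key : X → ℝ) (hkey : Measurable key)
    (β : Fin r → X → FreeGroup (Fin r)) (hβ : ∀ i x, T (FreeGroup.of i) x = β i x • x)
    (t : Fin r × FreeGroup (Fin r) × FreeGroup (Fin r) × FreeGroup (Fin r)) :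
    Measurable fun x => Chg T E key β x t := by
  have hU : Measurable (fun x : X => t.2.1 • x) := (hC.mpU t.2.1).measurable
  unfold Chg
  refine Measurable.and ?_ (measurable_const.and (Measurable.and ?_
    ((near_meas T hC E hE key hkey _ _).and (blk_meas T hC E hE _ _))))
  · exact measurableSet_setOfPred.mp (hU (hE t.1)).compl
  · exact (beta_pred T hC β hβ t.1 (fun g => ¬ ((CG r).deleteEdges
      {s(t.2.2.1, t.2.2.2)}).Reachable t.2.1 (g * t.2.1))).comp hU

theorem wt_meas [StandardBorelSpace X] (T : FreeGroup (Fin r) → X → X) (hC : Common μ T)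
    (E : Fin r → Set X) (hE : ∀ i, MeasurableSet (E i)) (key : X → ℝ) (hkey : Measurable key)
    (β : Fin r → X → FreeGroup (Fin r)) (hβ : ∀ i x, T (FreeGroup.of i) x = β i x • x)
    (t : Fin r × FreeGroup (Fin r) × FreeGroup (Fin r) × FreeGroup (Fin r)) :
    Measurable (Wt T E key β t) := by
  have hU : Measurable (fun x : X => t.2.1 • x) := (hC.mpU t.2.1).measurable
  unfold Wt
  refine Measurable.ite (measurableSet_setOfPred.mpr (chg_meas T hC E hE key hkey β hβ t)) ?_
    measurable_const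
  exact (beta_fun T hC β hβ t.1 (fun g => (g.norm : ℝ≥0∞) + 1)).comp hU

theorem block_bound [IsProbabilityMeasure μ] [StandardBorelSpace X]
    (T : FreeGroup (Fin r) → X → X) (hC : Common μ T)
    (E : Fin r → Set X) (hE : ∀ i, MeasurableSet (E i)) (key : X → ℝ) (hkey : Measurable key)
    (hki : Function.Injective key)
    (β : Fin r → X → FreeGroup (Fin r)) (hβ : ∀ i x, T (FreeGroup.of i) x = β i x • x)
    (hβ2 : ∀ i, MemLp (fun x => ((β i x).norm : ℝ)) 2 μ) (S : Finset (FreeGroup (Fin r))) :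
    ∑ g ∈ S, μ.real {x | (HG T E key x).Adj 1 g ∧ ¬ (CC T E x).Adj 1 g} * ((g.norm : ℝ) + 1) ≤
      ∑ i, ∫ x in (E i)ᶜ, (((β i x).norm : ℝ) + 1) * (2 * ((β i x).norm : ℝ)) ∂μ := by
  classical
  have hbm : ∀ g, MeasurableSet {x | Bkp T E key x g} := fun g =>
    measurableSet_setOfPred.mpr ((hg_adj_meas T hC E hE key hkey 1 g).and
      (cc_adj_meas T hC E hE 1 g).not)
  -- the inequality in `ℝ≥0∞`
  have hmain : ∑ g ∈ S, μ {x | Bkp T E key x g} * ((g.norm : ℝ≥0∞) + 1) ≤
      ∑ i, ∫⁻ x in (E i)ᶜ, (((β i x).norm : ℝ≥0∞) + 1) * (2 * ((β i x).norm : ℝ≥0∞)) ∂μ := by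
    calc ∑ g ∈ S, μ {x | Bkp T E key x g} * ((g.norm : ℝ≥0∞) + 1)
        = ∑ g ∈ S, ∫⁻ x, (if Bkp T E key x g then ((g.norm : ℝ≥0∞) + 1) else 0) ∂μ := by
          apply Finset.sum_congr rfl
          intro g _
          have h1 : (fun x => if Bkp T E key x g then ((g.norm : ℝ≥0∞) + 1) else 0) =
              {x | Bkp T E key x g}.indicator (fun _ => (g.norm : ℝ≥0∞) + 1) := by
            funext x
            rw [Set.indicator_apply]
            rfl
          rw [h1, lintegral_indicator_const (hbm g), mul_comm]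
      _ = ∫⁻ x, ∑ g ∈ S, (if Bkp T E key x g then ((g.norm : ℝ≥0∞) + 1) else 0) ∂μ := by
          rw [lintegral_finsetSum]
          intro g _
          exact Measurable.ite (hbm g) measurable_const measurable_const
      _ ≤ ∫⁻ x, ∑' t, Wt T E key β t x ∂μ :=
          lintegral_mono fun x => ptwise T hC E key hki β hβ S x
      _ = ∫⁻ x, ∑' t : Fin r × FreeGroup (Fin r) × FreeGroup (Fin r) × FreeGroup (Fin r),
            Wt T E key β t (t.2.1⁻¹ • x) ∂μ :=
          transport (fun t => Wt T E key β t) (fun t => wt_meas T hC E hE key hkey β hβ t)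
            (fun t x => t.2.1⁻¹ • x) (fun t => hC.mpU _)
      _ ≤ ∫⁻ x, ∑ i, (if x ∈ E i then 0 else
            (((β i x).norm : ℝ≥0∞) + 1) * (2 * ((β i x).norm : ℝ≥0∞))) ∂μ :=
          lintegral_mono fun x => ptwise2 T hC E key hki β x
      _ = ∑ i, ∫⁻ x, (if x ∈ E i then 0 else
            (((β i x).norm : ℝ≥0∞) + 1) * (2 * ((β i x).norm : ℝ≥0∞))) ∂μ := by
          rw [lintegral_finsetSum]
          intro i _
          exact Measurable.ite (hE i) measurable_const
            (beta_fun T hC β hβ i (fun g => ((g.norm : ℝ≥0∞) + 1) * (2 * (g.norm : ℝ≥0∞))))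
      _ = ∑ i, ∫⁻ x in (E i)ᶜ, (((β i x).norm : ℝ≥0∞) + 1) * (2 * ((β i x).norm : ℝ≥0∞)) ∂μ := by
          apply Finset.sum_congr rfl
          intro i _
          rw [← lintegral_indicator (hE i).compl]
          congr 1
          funext x
          rw [Set.indicator_apply]
          by_cases hx : x ∈ E i
          · rw [if_pos hx, if_neg (fun h : x ∈ (E i)ᶜ => h hx)]
          · rw [if_neg hx, if_pos (show x ∈ (E i)ᶜ from hx)]
  -- back to the reals
  have hint : ∀ i, Integrable (fun x => (((β i x).norm : ℝ) + 1) * (2 * ((β i x).norm : ℝ))) μ := by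
    intro i
    have h1 := (hβ2 i).integrable_sq
    have h2 := (hβ2 i).integrable (by norm_num)
    have h3 : (fun x => (((β i x).norm : ℝ) + 1) * (2 * ((β i x).norm : ℝ))) =
        fun x => 2 * ((β i x).norm : ℝ) ^ 2 + 2 * ((β i x).norm : ℝ) := by
      funext x
      ring
    rw [h3]
    exact (h1.const_mul 2).add (h2.const_mul 2)
  have hnn : ∀ i, 0 ≤ ∫ x in (E i)ᶜ, (((β i x).norm : ℝ) + 1) * (2 * ((β i x).norm : ℝ)) ∂μ := by
    intro i
    apply integral_nonneg
    intro x
    positivity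
  have hR : ENNReal.ofReal (∑ i, ∫ x in (E i)ᶜ, (((β i x).norm : ℝ) + 1) *
      (2 * ((β i x).norm : ℝ)) ∂μ) =
      ∑ i, ∫⁻ x in (E i)ᶜ, (((β i x).norm : ℝ≥0∞) + 1) * (2 * ((β i x).norm : ℝ≥0∞)) ∂μ := by
    rw [ENNReal.ofReal_sum_of_nonneg (fun i _ => hnn i)]
    apply Finset.sum_congr rfl
    intro i _
    rw [ofReal_integral_eq_lintegral_ofReal (hint i).integrableOn
      (Filter.Eventually.of_forall fun x => by positivity)]
    congr 1
    funext x
    rw [ENNReal.ofReal_mul (by positivity), ENNReal.ofReal_add (by positivity) zero_le_one,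
      ENNReal.ofReal_mul (by norm_num), ENNReal.ofReal_natCast, ENNReal.ofReal_one,
      ENNReal.ofReal_ofNat]
  have hL : ENNReal.ofReal (∑ g ∈ S, μ.real {x | (HG T E key x).Adj 1 g ∧
      ¬ (CC T E x).Adj 1 g} * ((g.norm : ℝ) + 1)) =
      ∑ g ∈ S, μ {x | Bkp T E key x g} * ((g.norm : ℝ≥0∞) + 1) := by
    rw [ENNReal.ofReal_sum_of_nonneg (fun g _ => by positivity)]
    apply Finset.sum_congr rfl
    intro g _
    rw [ENNReal.ofReal_mul (by positivity), ENNReal.ofReal_add (by positivity) zero_le_one,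
      ENNReal.ofReal_natCast, ENNReal.ofReal_one, ofReal_measureReal]
    rfl
  rw [← ENNReal.ofReal_le_ofReal_iff (Finset.sum_nonneg fun i _ => hnn i), hL, hR]
  exact hmain

end MeasPart

end Pool.Agent.TH929.FI
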