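import Pool.Agent.TH722.FI.Defs

/-!
Job FI-MEAS (project MP_572a3e_an): measurability of the hybrid graph, niceness and clusters.
-/

namespace Pool.Agent.TH929.FI

open MeasureTheory Set Filter Pool.Agent.TH722.FI
open scoped Topology ENNReal

section General

variable {X G : Type*} [MeasurableSpace X] [Countable G]

/-- existence of a walk of length `n` is a measurable event -/
theorem walk_meas (H : X → SimpleGraph G) (hH : ∀ a b, Measurable fun x => (H x).Adj a b) (n : ℕ) :
    ∀ a b, Measurable fun x => ∃ p : (H x).Walk a b, p.length = n := by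
  induction n with
  | zero =>
    intro a b
    have : (fun x => ∃ p : (H x).Walk a b, p.length = 0) = fun _ => a = b := by
      funext x
      apply propext
      constructor
      · rintro ⟨p, hp⟩
        exact SimpleGraph.Walk.eq_of_length_eq_zero hp
      · rintro rfl
        exact ⟨SimpleGraph.Walk.nil, rfl⟩
    rw [this]
    exact measurable_const
  | succ n ih =>
    intro a b
    have : (fun x => ∃ p : (H x).Walk a b, p.length = n + 1) =
        fun x => ∃ c, (H x).Adj a c ∧ ∃ p : (H x).Walk c b, p.length = n := by
      funext x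
      apply propext
      constructor
      · rintro ⟨p, hp⟩
        cases p with
        | nil => simp at hp
        | cons h q =>
          refine ⟨_, h, q, ?_⟩
          simpa using hp
      · rintro ⟨c, hc, q, hq⟩
        exact ⟨SimpleGraph.Walk.cons hc q, by simp [hq]⟩
    rw [this]
    exact Measurable.exists fun c => (hH a c).and (ih c b)

theorem reach_meas (H : X → SimpleGraph G) (hH : ∀ a b, Measurable fun x => (H x).Adj a b)
    (a b : G) : Measurable fun x => (H x).Reachable a b := by
  have : (fun x => (H x).Reachable a b) = fun x => ∃ n, ∃ p : (H x).Walk a b, p.length = n := by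
    funext x
    apply propext
    constructor
    · rintro ⟨p⟩
      exact ⟨_, p, rfl⟩
    · rintro ⟨n, p, _⟩
      exact ⟨p⟩
  rw [this]
  exact Measurable.exists fun n => walk_meas H hH n a b

theorem dist_meas (H : X → SimpleGraph G) (hH : ∀ a b, Measurable fun x => (H x).Adj a b)
    (a b : G) : Measurable fun x => (H x).dist a b := by
  apply measurable_to_countable'
  intro n
  have : (fun x => (H x).dist a b) ⁻¹' {n} =
      {x | (n = 0 ∧ ¬ (H x).Reachable a b) ∨
        ((∃ p : (H x).Walk a b, p.length = n) ∧
          ∀ m : ℕ, m < n → ¬ ∃ p : (H x).Walk a b, p.length = m)} := by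
    ext x
    simp only [mem_preimage, mem_singleton_iff, mem_ofPred_eq]
    constructor
    · intro h
      by_cases hr : (H x).Reachable a b
      · right
        refine ⟨?_, ?_⟩
        · obtain ⟨p, hp⟩ := hr.exists_walk_length_eq_dist
          exact ⟨p, by rw [hp, h]⟩
        · rintro m hm ⟨p, hp⟩
          have := SimpleGraph.dist_le p
          omega
      · left
        refine ⟨?_, hr⟩
        rw [← h]
        exact SimpleGraph.dist_eq_zero_of_not_reachable hr
    · rintro (⟨h0, hr⟩ | ⟨⟨p, hp⟩, hm⟩)
      · rw [h0]
        exact SimpleGraph.dist_eq_zero_of_not_reachable hr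
      · have hr : (H x).Reachable a b := ⟨p⟩
        obtain ⟨q, hq⟩ := hr.exists_walk_length_eq_dist
        have h1 := SimpleGraph.dist_le p
        by_contra hne
        exact hm ((H x).dist a b) (by omega) ⟨q, hq⟩
  rw [this]
  apply measurableSet_setOfPred.mpr
  refine Measurable.or (measurable_const.and (reach_meas H hH a b).not) ?_
  refine Measurable.and (walk_meas H hH n a b) ?_
  exact Measurable.forall fun m => measurable_const.imp (walk_meas H hH m a b).not

end General

section Main

variable {r : ℕ} {X : Type*} [MeasurableSpace X] {μ : Measure X}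

instance countable_freeGroup_fin (r : ℕ) : Countable (FreeGroup (Fin r)) := by
  unfold FreeGroup
  infer_instance

variable [MulAction (FreeGroup (Fin r)) X]

theorem tg_adj_meas [StandardBorelSpace X] (T : FreeGroup (Fin r) → X → X) (hC : Common μ T)
    (a b : FreeGroup (Fin r)) : Measurable fun x => (TG T x).Adj a b := by
  have hU : ∀ g : FreeGroup (Fin r), Measurable (fun x : X => g • x) := fun g => (hC.mpU g).measurable
  have hT : ∀ g, Measurable (T g) := fun g => (hC.actT.mp g).measurable
  change Measurable fun x => a ≠ b ∧ ∃ i : Fin r,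
    T (FreeGroup.of i) (a • x) = b • x ∨ T (FreeGroup.of i) (b • x) = a • x
  refine measurable_const.and (Measurable.exists fun i => ?_)
  exact (Measurable.eq ((hT _).comp (hU a)) (hU b)).or (Measurable.eq ((hT _).comp (hU b)) (hU a))

theorem cc_adj_meas [StandardBorelSpace X] (T : FreeGroup (Fin r) → X → X) (hC : Common μ T)
    (E : Fin r → Set X) (hE : ∀ i, MeasurableSet (E i))
    (a b : FreeGroup (Fin r)) : Measurable fun x => (CC T E x).Adj a b := by
  have hU : ∀ g : FreeGroup (Fin r), Measurable (fun x : X => g • x) := fun g => (hC.mpU g).measurable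
  have hT : ∀ g, Measurable (T g) := fun g => (hC.actT.mp g).measurable
  change Measurable fun x => a ≠ b ∧ ∃ i : Fin r,
    (a • x ∈ E i ∧ T (FreeGroup.of i) (a • x) = b • x) ∨
      (b • x ∈ E i ∧ T (FreeGroup.of i) (b • x) = a • x)
  refine measurable_const.and (Measurable.exists fun i => ?_)
  have hm : ∀ g : FreeGroup (Fin r), Measurable fun x : X => g • x ∈ E i :=
    fun g => measurableSet_setOfPred.mp ((hU g) (hE i))
  exact ((hm a).and (Measurable.eq ((hT _).comp (hU a)) (hU b))).or
    ((hm b).and (Measurable.eq ((hT _).comp (hU b)) (hU a)))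

theorem blk_meas [StandardBorelSpace X] (T : FreeGroup (Fin r) → X → X) (hC : Common μ T)
    (E : Fin r → Set X) (hE : ∀ i, MeasurableSet (E i))
    (a b : FreeGroup (Fin r)) : Measurable fun x => Blk (TG T x) (CC T E x) a b := by
  refine reach_meas (fun x => TG T x \ CC T E x) (fun a b => ?_) a b
  simp only [SimpleGraph.sdiff_adj]
  exact (tg_adj_meas T hC a b).and (cc_adj_meas T hC E hE a b).not

theorem near_meas [StandardBorelSpace X] (T : FreeGroup (Fin r) → X → X) (hC : Common μ T)
    (E : Fin r → Set X) (hE : ∀ i, MeasurableSet (E i)) (key : X → ℝ) (hkey : Measurable key)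
    (a b : FreeGroup (Fin r)) :
    Measurable fun x => Near (CG r) (TG T x) (CC T E x) (fun g => key (g • x)) a b := by
  have hU : ∀ g : FreeGroup (Fin r), Measurable (fun x : X => g • x) := fun g => (hC.mpU g).measurable
  unfold Near
  refine Measurable.forall fun w => (blk_meas T hC E hE b w).imp ?_
  refine measurable_const.or (measurable_const.and ?_)
  exact measurableSet_setOfPred.mp (measurableSet_le (hkey.comp (hU b)) (hkey.comp (hU w)))

theorem hg_adj_meas [StandardBorelSpace X] (T : FreeGroup (Fin r) → X → X) (hC : Common μ T)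
    (E : Fin r → Set X) (hE : ∀ i, MeasurableSet (E i)) (key : X → ℝ) (hkey : Measurable key)
    (a b : FreeGroup (Fin r)) :
    Measurable fun x => (HG T E key x).Adj a b := by
  change Measurable fun x => (CC T E x).Adj a b ∨
    (a ≠ b ∧ Blk (TG T x) (CC T E x) a b ∧ ∃ u v, (CG r).Adj u v ∧
      Near (CG r) (TG T x) (CC T E x) (fun g => key (g • x)) u a ∧
      Near (CG r) (TG T x) (CC T E x) (fun g => key (g • x)) v b)
  refine (cc_adj_meas T hC E hE a b).or (measurable_const.and ((blk_meas T hC E hE a b).and ?_))
  exact Measurable.exists fun u => Measurable.exists fun v => measurable_const.and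
    ((near_meas T hC E hE key hkey u a).and (near_meas T hC E hE key hkey v b))

theorem del_reach_meas [StandardBorelSpace X] (T : FreeGroup (Fin r) → X → X) (hC : Common μ T)
    (s : Set (Sym2 (FreeGroup (Fin r)))) (u v : FreeGroup (Fin r)) :
    Measurable fun x => ((TG T x).deleteEdges s).Reachable u v := by
  refine reach_meas (fun x => (TG T x).deleteEdges s) (fun a b => ?_) u v
  simp only [SimpleGraph.deleteEdges_adj]
  exact (tg_adj_meas T hC a b).and measurable_const

theorem nice_meas [StandardBorelSpace X] (T : FreeGroup (Fin r) → X → X) (hC : Common μ T)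
    (M : ℕ) (a b : FreeGroup (Fin r)) :
    Measurable fun x => Nice (CG r) (TG T x) M a b := by
  unfold Nice
  refine measurable_const.and (Measurable.forall fun u => Measurable.forall fun v => ?_)
  exact measurable_const.imp ((del_reach_meas T hC _ u v).not.imp measurable_const)

theorem hull_meas [StandardBorelSpace X] (T : FreeGroup (Fin r) → X → X) (hC : Common μ T)
    (E : Fin r → Set X) (hE : ∀ i, MeasurableSet (E i)) (key : X → ℝ) (hkey : Measurable key)
    (B : Set (FreeGroup (Fin r))) (z : FreeGroup (Fin r)) :
    Measurable fun x => Hull (HG T E key x) B z := by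
  have hd : ∀ a b, Measurable fun x => (HG T E key x).dist a b :=
    fun a b => dist_meas _ (fun a b => hg_adj_meas T hC E hE key hkey a b) a b
  unfold Hull
  refine Measurable.exists fun p => measurable_const.and
    (Measurable.exists fun q => measurable_const.and ?_)
  exact Measurable.eq ((hd p z).add (hd z q)) (hd p q)

theorem clus_meas [StandardBorelSpace X] (T : FreeGroup (Fin r) → X → X) (hC : Common μ T)
    (E : Fin r → Set X) (hE : ∀ i, MeasurableSet (E i)) (key : X → ℝ) (hkey : Measurable key)
    (Q : Set X) (hQ : MeasurableSet Q) (R : ℕ) (a b : FreeGroup (Fin r)) :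
    Measurable fun x => Clus (CG r) (HG T E key x) {g | g • x ∈ Q} R a b := by
  have hU : ∀ g : FreeGroup (Fin r), Measurable (fun x : X => g • x) := fun g => (hC.mpU g).measurable
  unfold Clus
  refine measurable_const.or (Measurable.exists fun n => ?_)
  refine Measurable.and ?_ ((hull_meas T hC E hE key hkey _ a).and
    (hull_meas T hC E hE key hkey _ b))
  exact measurableSet_setOfPred.mp ((hU n) hQ)

theorem hg_meas [StandardBorelSpace X] (T : FreeGroup (Fin r) → X → X) (hC : Common μ T)
    (E : Fin r → Set X) (hE : ∀ i, MeasurableSet (E i)) (key : X → ℝ) (hkey : Measurable key)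
    (a b : FreeGroup (Fin r)) :
    MeasurableSet {x | (TG T x).Adj a b} ∧ MeasurableSet {x | (CC T E x).Adj a b} ∧
    MeasurableSet {x | Blk (TG T x) (CC T E x) a b} ∧
    MeasurableSet {x | Near (CG r) (TG T x) (CC T E x) (fun g => key (g • x)) a b} ∧
    MeasurableSet {x | (HG T E key x).Adj a b} ∧
    (∀ M, MeasurableSet {x | Nice (CG r) (TG T x) M a b}) ∧
    (∀ (Q : Set X) (_ : MeasurableSet Q) (R : ℕ),
      MeasurableSet {x | Clus (CG r) (HG T E key x) {g | g • x ∈ Q} R a b}) :=
  ⟨measurableSet_setOfPred.mpr (tg_adj_meas T hC a b),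
   measurableSet_setOfPred.mpr (cc_adj_meas T hC E hE a b),
   measurableSet_setOfPred.mpr (blk_meas T hC E hE a b),
   measurableSet_setOfPred.mpr (near_meas T hC E hE key hkey a b),
   measurableSet_setOfPred.mpr (hg_adj_meas T hC E hE key hkey a b),
   fun M => measurableSet_setOfPred.mpr (nice_meas T hC M a b),
   fun Q hQ R => measurableSet_setOfPred.mpr (clus_meas T hC E hE key hkey Q hQ R a b)⟩

end Main

end Pool.Agent.TH929.FI
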