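import Pool.Agent.TH929.FI.Meas

/-!
Job FI-LAMBDA (project MP_572a3e_an), abstract tools.
-/

namespace Pool.Agent.TH929.FI

open MeasureTheory Set Filter Pool.Agent.TH722.FI
open scoped Topology ENNReal

section Abstract

/-- mass transport -/
theorem transport {X τ : Type*} [MeasurableSpace X] {μ : Measure X} [Countable τ]
    (f : τ → X → ℝ≥0∞) (hf : ∀ t, Measurable (f t)) (σ : τ → X → X)
    (hσ : ∀ t, MeasurePreserving (σ t) μ μ) :
    ∫⁻ x, ∑' t, f t x ∂μ = ∫⁻ x, ∑' t, f t (σ t x) ∂μ := by
  rw [lintegral_tsum (fun t => (hf t).aemeasurable),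
    lintegral_tsum (f := fun t x => f t (σ t x))
      (fun t => ((hf t).comp (hσ t).measurable).aemeasurable)]
  congr 1
  funext t
  exact ((hσ t).lintegral_comp (hf t)).symm

open Classical in
theorem tsum_ite_le {ι κ : Type*} (R : ι → Prop) (f : ι → κ) (D : Finset κ)
    (hf : ∀ t, R t → f t ∈ D) (hinj : ∀ t t', R t → R t' → f t = f t' → t = t') (c : ℝ≥0∞) :
    ∑' t, (if R t then c else 0) ≤ c * D.card := by
  have hfin : {t | R t}.Finite := by
    apply Set.Finite.of_finite_image (f := f)
    · exact D.finite_toSet.subset (by rintro _ ⟨t, ht, rfl⟩; exact hf t ht)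
    · intro t ht t' ht' h
      exact hinj t t' ht ht' h
  rw [tsum_eq_sum (s := hfin.toFinset) (fun t ht => by
    rw [if_neg]
    intro h
    exact ht (hfin.mem_toFinset.2 h))]
  have h1 : hfin.toFinset.card ≤ D.card := by
    apply Finset.card_le_card_of_injOn f
    · intro t ht
      exact hf t (hfin.mem_toFinset.1 ht)
    · intro t ht t' ht' h
      exact hinj t t' (hfin.mem_toFinset.1 ht) (hfin.mem_toFinset.1 ht') h
  calc ∑ t ∈ hfin.toFinset, (if R t then c else 0) ≤ ∑ t ∈ hfin.toFinset, c := by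
        apply Finset.sum_le_sum
        intro t _
        split_ifs
        · exact le_rfl
        · exact zero_le
    _ = hfin.toFinset.card * c := by rw [Finset.sum_const, nsmul_eq_mul]
    _ ≤ D.card * c := by gcongr
    _ = c * D.card := mul_comm _ _

/-- the directed edges of a connected graph separating two points -/
theorem sep_finset {V : Type*} (U : SimpleGraph V) (hU : U.Connected) (a b : V) :
    ∃ D : Finset (V × V), D.card ≤ 2 * U.dist a b ∧
      ∀ u v, U.Adj u v → ¬ (U.deleteEdges {s(u, v)}).Reachable a b → (u, v) ∈ D := by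
  classical
  obtain ⟨p, hp⟩ := hU.exists_walk_length_eq_dist a b
  refine ⟨(p.darts.map (fun d => d.toProd) ++ p.darts.map (fun d => d.toProd.swap)).toFinset,
    ?_, ?_⟩
  · refine (List.toFinset_card_le _).trans ?_
    simp only [List.length_append, List.length_map, SimpleGraph.Walk.length_darts, hp]
    omega
  · intro u v huv h
    have h1 : s(u, v) ∈ p.edges := by
      by_contra hn
      exact h ⟨p.toDeleteEdge s(u, v) hn⟩
    rw [SimpleGraph.Walk.edges, List.mem_map] at h1
    obtain ⟨d, hd, hde⟩ := h1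
    rw [SimpleGraph.dart_edge_eq_mk'_iff] at hde
    rw [List.mem_toFinset, List.mem_append, List.mem_map, List.mem_map]
    rcases hde with h2 | h2
    · exact Or.inl ⟨d, hd, h2⟩
    · exact Or.inr ⟨d, hd, by rw [h2]; rfl⟩

end Abstract

section Equi

variable {r : ℕ} {X : Type*} [MulAction (FreeGroup (Fin r)) X]

theorem tg_adj_smul (T : FreeGroup (Fin r) → X → X) (x : X) (h a b : FreeGroup (Fin r)) :
    (TG T (h • x)).Adj a b ↔ (TG T x).Adj (a * h) (b * h) := by
  change (a ≠ b ∧ ∃ i : Fin r, T (FreeGroup.of i) (a • h • x) = b • h • x ∨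
    T (FreeGroup.of i) (b • h • x) = a • h • x) ↔ (a * h ≠ b * h ∧ ∃ i : Fin r,
      T (FreeGroup.of i) ((a * h) • x) = (b * h) • x ∨
      T (FreeGroup.of i) ((b * h) • x) = (a * h) • x)
  simp only [smul_smul, ne_eq, mul_left_inj]

theorem cc_adj_smul (T : FreeGroup (Fin r) → X → X) (E : Fin r → Set X) (x : X)
    (h a b : FreeGroup (Fin r)) :
    (CC T E (h • x)).Adj a b ↔ (CC T E x).Adj (a * h) (b * h) := by
  change (a ≠ b ∧ ∃ i : Fin r, (a • h • x ∈ E i ∧ T (FreeGroup.of i) (a • h • x) = b • h • x) ∨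
    (b • h • x ∈ E i ∧ T (FreeGroup.of i) (b • h • x) = a • h • x)) ↔ (a * h ≠ b * h ∧ ∃ i : Fin r,
      ((a * h) • x ∈ E i ∧ T (FreeGroup.of i) ((a * h) • x) = (b * h) • x) ∨
      ((b * h) • x ∈ E i ∧ T (FreeGroup.of i) ((b * h) • x) = (a * h) • x))
  simp only [smul_smul, ne_eq, mul_left_inj]

/-- reachability is invariant under right translation -/
theorem reach_mul {G : Type*} [Group G] (H H' : SimpleGraph G) (h : G)
    (hH : ∀ a b, H'.Adj a b ↔ H.Adj (a * h) (b * h)) (a b : G) :
    H'.Reachable a b ↔ H.Reachable (a * h) (b * h) := by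
  let φ : H' ≃g H := ⟨Equiv.mulRight h, by intro a b; exact (hH a b).symm⟩
  exact (SimpleGraph.Iso.reachable_iff (φ := φ) (u := a) (v := b)).symm

theorem blk_smul (T : FreeGroup (Fin r) → X → X) (E : Fin r → Set X) (x : X)
    (h a b : FreeGroup (Fin r)) :
    Blk (TG T (h • x)) (CC T E (h • x)) a b ↔ Blk (TG T x) (CC T E x) (a * h) (b * h) := by
  apply reach_mul
  intro a b
  rw [SimpleGraph.sdiff_adj, SimpleGraph.sdiff_adj, tg_adj_smul, cc_adj_smul]

theorem near_smul (hd : ∀ a b : FreeGroup (Fin r), (CG r).dist a b = (b * a⁻¹).norm)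
    (T : FreeGroup (Fin r) → X → X) (E : Fin r → Set X) (key : X → ℝ) (x : X)
    (h a b : FreeGroup (Fin r)) :
    Near (CG r) (TG T (h • x)) (CC T E (h • x)) (fun g => key (g • h • x)) a b ↔
    Near (CG r) (TG T x) (CC T E x) (fun g => key (g • x)) (a * h) (b * h) := by
  have hd' : ∀ a b h : FreeGroup (Fin r), (CG r).dist (a * h) (b * h) = (CG r).dist a b := by
    intro a b h
    rw [hd, hd]
    congr 1
    group
  unfold Near
  constructor
  · intro H w hw
    have h1 := H (w * h⁻¹) (by rw [blk_smul]; simpa using hw)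
    have h2 := hd' a (w * h⁻¹) h
    rw [inv_mul_cancel_right] at h2
    rw [hd' a b h, h2]
    simpa only [smul_smul, inv_mul_cancel_right] using h1
  · intro H w hw
    have h1 := H (w * h) (by rw [← blk_smul]; exact hw)
    rw [hd', hd'] at h1
    simpa only [smul_smul] using h1

theorem cg_del_reach_mul (ha : ∀ a b h : FreeGroup (Fin r), (CG r).Adj (a * h) (b * h) ↔ (CG r).Adj a b)
    (u v a b h : FreeGroup (Fin r)) :
    ((CG r).deleteEdges {s(u, v)}).Reachable a b ↔
    ((CG r).deleteEdges {s(u * h, v * h)}).Reachable (a * h) (b * h) := by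
  apply reach_mul
  intro a b
  rw [SimpleGraph.deleteEdges_adj, SimpleGraph.deleteEdges_adj, ha]
  simp only [mem_singleton_iff, Sym2.eq_iff, mul_left_inj]

end Equi

end Pool.Agent.TH929.FI
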